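import Pool.Agent.Run7.h462.LW.Stm
import Pool.Agent.Run7.h462.KT.Clk

/-!
# Project LW (helper462), piece CUT (helper304): the truncated singular series does not depend on the cut
-/

set_option autoImplicit false

namespace Run7.h304.LW

open Finset
open Run7.h462.KT (gk inj ov gk_nonneg rk rk_X close_one gk_eq_prod)
open Run7.h462.LW
open Pool.Agent.H373R2.T7 (pz Vz mem_pz Vz_pos)
open Pool.Agent.TH204.WR (rho hh)
open scoped Polynomial

lemma rho_X (t : ℤ) {p : ℕ} (hp : p.Prime) : rho (Polynomial.X : ℤ[X]) t p = 1 := by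
  unfold rho
  have hp0 : (0 : ℤ) < p := by exact_mod_cast hp.pos
  rw [card_eq_one]
  refine ⟨((-t) % p).toNat, ?_⟩
  have h1 : 0 ≤ (-t) % (p : ℤ) := Int.emod_nonneg _ hp0.ne'
  have h2 : (-t) % (p : ℤ) < p := Int.emod_lt_of_pos _ hp0
  ext a
  simp only [mem_filter, mem_range, mem_singleton, Polynomial.eval_X]
  constructor
  · rintro ⟨ha, hd⟩
    have h3 : -t ≡ (a : ℤ) [ZMOD p] := by
      rw [Int.modEq_iff_dvd]
      simpa using hd
    have h4 : (-t) % (p : ℤ) = (a : ℤ) % p := h3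
    have h5 : (a : ℤ) % p = a := Int.emod_eq_of_lt (by positivity) (by exact_mod_cast ha)
    omega
  · rintro rfl
    refine ⟨by omega, ?_⟩
    rw [Int.toNat_of_nonneg h1]
    have h3 : -t ≡ (-t) % (p : ℤ) [ZMOD p] := (Int.mod_modEq _ _).symm
    rw [Int.modEq_iff_dvd] at h3
    simpa using h3

lemma hh_X (t : ℤ) (z : ℕ) : hh (Polynomial.X : ℤ[X]) t z = 1 := by
  unfold hh
  have h1 : ∏ p ∈ pz z, (1 - (rho (Polynomial.X : ℤ[X]) t p : ℝ) / p) = Vz z := by
    unfold Vz
    refine prod_congr rfl fun p hp => ?_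
    rw [rho_X t (mem_pz.1 hp).2]
    simp
  rw [h1, inv_mul_cancel₀ (Vz_pos z).ne']

lemma rk_shift {k : ℕ} (h : Fin k → ℕ) {p : ℕ} (hp : p.Prime) :
    rk (Polynomial.X : ℤ[X]) (fun i => h i + 1) p = rk (Polynomial.X : ℤ[X]) h p := by
  classical
  rw [rk_X _ hp, rk_X _ hp]
  have h1 : (univ.image fun i => (h i + 1) % p) = (univ.image fun i => h i % p).image (fun x => (x + 1) % p) := by
    rw [image_image]
    refine image_congr fun i _ => ?_
    show (h i + 1) % p = (h i % p + 1) % p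
    rw [Nat.mod_add_mod]
  rw [h1]
  refine card_image_of_injOn ?_
  intro x hx y hy hxy
  rw [mem_coe, mem_image] at hx hy
  obtain ⟨i, -, rfl⟩ := hx
  obtain ⟨j, -, rfl⟩ := hy
  have h2 : (h i % p + 1) ≡ (h j % p + 1) [MOD p] := hxy
  have h3 : h i % p ≡ h j % p [MOD p] := Nat.ModEq.add_right_cancel' 1 h2
  have h4 : (h i % p) % p = (h j % p) % p := h3
  rwa [Nat.mod_mod, Nat.mod_mod] at h4

lemma gk_shift {k : ℕ} (h : Fin k → ℕ) (z : ℕ) :
    gk (Polynomial.X : ℤ[X]) (fun i => h i + 1) z = gk (Polynomial.X : ℤ[X]) h z := by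
  rw [gk_eq_prod, gk_eq_prod]
  refine prod_congr rfl fun p hp => ?_
  rw [rk_shift h (mem_pz.1 hp).2]

theorem t_CUT (k : ℕ) : S_CUT k := by
  intro θ hθ hθ1 H y z hk hy hyz hle h hh'
  classical
  have hh2 := mem_filter.1 hh'
  have hH : ∀ i, h i < H := fun i => mem_range.1 (Fintype.mem_piFinset.1 hh2.1 i)
  have hinj : Function.Injective fun i => h i + 1 := fun i j hij => hh2.2 (Nat.succ_injective hij)
  have hnd : (Polynomial.X : ℤ[X]).natDegree = 1 := Polynomial.natDegree_X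
  have hlc : (Polynomial.X : ℤ[X]).leadingCoeff = 1 := Polynomial.leadingCoeff_X
  have key := close_one (Polynomial.X : ℤ[X]) (fun i => h i + 1) (H + 1) y z (by rw [hnd]) (by rw [hlc]; norm_num) hinj
    (fun i => mem_Icc.2 ⟨by omega, by have := hH i; omega⟩) hyz (by rw [hlc]; simpa using hy) (by rw [hnd, mul_one]; exact hk) hy
    0 ((k : ℝ) ^ 2 / y + 4 * (k : ℝ) ^ 3 * Real.log (H + 1 : ℕ) / y) θ hθ1
    (fun i => by rw [hh_X, hh_X]; simp) (by
      rw [hnd, mul_one]
      apply le_of_eq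
      ring) (by
      rw [mul_zero, mul_zero, add_zero]
      exact hle) le_rfl
  rwa [gk_shift, gk_shift] at key

end Run7.h304.LW
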