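import Pool.Agent.Run7.h462.LW.Stm
import Pool.Agent.Run7.h304.KT.GA

/-!
# Project LW (helper462), piece SM (helper304): the second moment of the truncated singular series
-/

set_option autoImplicit false

namespace Run7.h304.LW

open Finset
open Run7.h462.KT (gk inj ov gk_nonneg)
open Run7.h462.LW
open Run7.h304.KT (gk_split ov_main)
open Pool.Agent.H373R2.T7 (pz Vz mem_pz Vz_pos)
open scoped Polynomial

lemma gk_one {k : ℕ} (h : Fin k → ℕ) : gk (Polynomial.X : ℤ[X]) h 1 = 1 := by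
  have h1 : pz 1 = ∅ := by
    ext p
    rw [mem_pz]
    simp only [notMem_empty, iff_false, not_and]
    intro h2 h3
    exact absurd h3.two_le (by omega)
  unfold gk Vz
  rw [h1]
  simp

theorem t_SM (k : ℕ) : S_SM k := by
  classical
  set a : ℝ := 3 ^ k with ha
  have ha0 : 0 ≤ a := by positivity
  obtain ⟨C', hC', h⟩ := ov_main k (2 * a + a ^ 2) (by positivity)
  refine ⟨1 + C', by linarith, fun w hw H => ?_⟩
  have h1 := h 1 le_rfl w H
  refine le_trans (sum_le_sum fun t ht => ?_) (h1.trans (le_of_eq (by simp)))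
  have h2 := gk_split t 1 w hw
  rw [gk_one, one_mul, ← ha] at h2
  have h3 : (∏ p ∈ (pz w).filter (fun p => 1 < p ∧ ov t p), (1 + a / (p : ℝ))) ^ 2 ≤
      ∏ p ∈ (pz w).filter (fun p => 1 < p ∧ ov t p), (1 + (2 * a + a ^ 2) / (p : ℝ)) := by
    rw [← prod_pow]
    refine prod_le_prod (fun p _ => sq_nonneg _) fun p hp => ?_
    have hp2 := (mem_filter.1 hp).2.1
    have hp1 : (1 : ℝ) ≤ p := by exact_mod_cast (by omega : 1 ≤ p)
    have hp0 : (0 : ℝ) < p := by linarith
    have h4 : a ^ 2 / (p : ℝ) ^ 2 ≤ a ^ 2 / p := by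
      apply div_le_div_of_nonneg_left (by positivity) hp0
      nlinarith
    calc (1 + a / (p : ℝ)) ^ 2 = 1 + 2 * a / p + a ^ 2 / (p : ℝ) ^ 2 := by field_simp; ring
      _ ≤ 1 + 2 * a / p + a ^ 2 / p := by linarith
      _ = _ := by ring
  refine le_trans (pow_le_pow_left₀ (gk_nonneg _ _ _) h2 2) ?_
  convert h3 using 1

end Run7.h304.LW
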